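import Mathlib
import Pool.Agent.N741.HB.Stm3
import Pool.Agent.N741.HB.Core
import Pool.Agent.N54.HB.A3

/-!
# Project HC: the core theorem for algebraic points
-/

set_option autoImplicit false

namespace Pool.Agent.N438.HC

open Filter MvPolynomial Pool.Agent.Y902.GN Pool.Agent.N741.HB Pool.Agent.N741.HC

section alg

variable {d N : ℕ}

/-- values of monomials under a ring homomorphism -/
theorem map_mon {R : Type*} [CommRing R] (f : MvPolynomial (Option (Fin d)) ℤ →+* R)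
    {b0 : MvPolynomial (Option (Fin d)) ℤ} {b : Fin N → MvPolynomial (Option (Fin d)) ℤ}
    {y : Fin N → R} (h : ∀ j, f b0 * y j = f (b j)) {e : Fin N → ℕ} {M : ℕ}
    (hM : ∑ j, e j ≤ M) : f (mon b0 b e M) = f b0 ^ M * ∏ j, y j ^ e j := by
  unfold mon
  rw [map_mul, map_prod, map_pow]
  have h1 : ∏ j, f (b j ^ e j) = f b0 ^ (∑ j, e j) * ∏ j, y j ^ e j := by
    rw [← Finset.prod_pow_eq_pow_sum, ← Finset.prod_mul_distrib]
    refine Finset.prod_congr rfl fun j _ => ?_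
    rw [map_pow, ← h j, mul_pow]
  rw [h1]
  have h2 : f b0 ^ M = f b0 ^ (∑ j, e j) * f b0 ^ (M - ∑ j, e j) := by
    rw [← pow_add]
    congr 1
    omega
  rw [h2]
  ring

/-- the polynomials representing Laurent monomials -/
noncomputable def Nm (b0 : MvPolynomial (Option (Fin d)) ℤ)
    (b : Fin N → MvPolynomial (Option (Fin d)) ℤ) (a : Fin N → ℤ) :
    MvPolynomial (Option (Fin d)) ℤ := (∏ j, b j ^ (a j).toNat) * b0 ^ (∑ j, (-a j).toNat)

theorem map_Nm {R : Type*} [CommRing R] (f : MvPolynomial (Option (Fin d)) ℤ →+* R)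
    {b0 : MvPolynomial (Option (Fin d)) ℤ} {b : Fin N → MvPolynomial (Option (Fin d)) ℤ}
    {y : Fin N → R} (h : ∀ j, f b0 * y j = f (b j)) (a : Fin N → ℤ) :
    f (Nm b0 b a) = f b0 ^ (∑ j, (a j).toNat + ∑ j, (-a j).toNat) *
      ∏ j, y j ^ (a j).toNat := by
  unfold Nm
  rw [map_mul, map_prod, map_pow, pow_add]
  have h1 : ∏ j, f (b j ^ (a j).toNat) = f b0 ^ (∑ j, (a j).toNat) *
      ∏ j, y j ^ (a j).toNat := by
    rw [← Finset.prod_pow_eq_pow_sum, ← Finset.prod_mul_distrib]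
    refine Finset.prod_congr rfl fun j _ => ?_
    rw [map_pow, ← h j, mul_pow]
  rw [h1]
  ring

theorem Nm_ratio {F : Type*} [Field F] (f : MvPolynomial (Option (Fin d)) ℤ →+* F)
    {b0 : MvPolynomial (Option (Fin d)) ℤ} {b : Fin N → MvPolynomial (Option (Fin d)) ℤ}
    {y : Fin N → F} (h : ∀ j, f b0 * y j = f (b j)) (hb0 : f b0 ≠ 0) (hy : ∀ j, y j ≠ 0)
    (a : Fin N → ℤ) : f (Nm b0 b (-a)) ≠ 0 ∧
      f (Nm b0 b a) = f (Nm b0 b (-a)) * ∏ j, y j ^ a j := by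
  have e1 := map_Nm f h a
  have e2 := map_Nm f h (-a)
  simp only [Pi.neg_apply, neg_neg] at e2
  rw [add_comm] at e2
  refine ⟨?_, ?_⟩
  · rw [e2]
    exact mul_ne_zero (pow_ne_zero _ hb0)
      (Finset.prod_ne_zero_iff.2 fun j _ => pow_ne_zero _ (hy j))
  · rw [e1, e2, mul_assoc, ← Finset.prod_mul_distrib]
    congr 1
    refine Finset.prod_congr rfl fun j _ => ?_
    rw [← zpow_natCast, ← zpow_natCast, ← zpow_add₀ (hy j)]
    congr 1
    omega

/-- a polynomial in a Laurent monomial, without denominators -/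
noncomputable def Pn (b0 : MvPolynomial (Option (Fin d)) ℤ)
    (b : Fin N → MvPolynomial (Option (Fin d)) ℤ) (a : Fin N → ℤ) (p : Polynomial ℤ) :
    MvPolynomial (Option (Fin d)) ℤ :=
  ∑ k ∈ Finset.range (p.natDegree + 1), C (p.coeff k) *
    (Nm b0 b a ^ k * Nm b0 b (-a) ^ (p.natDegree - k))

theorem map_C_int {R : Type*} [CommRing R] (f : MvPolynomial (Option (Fin d)) ℤ →+* R) (z : ℤ) :
    f (C z) = (z : R) := by
  have h := eq_intCast (f.comp C) z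
  rwa [RingHom.comp_apply] at h

theorem map_Pn {F : Type*} [Field F] (f : MvPolynomial (Option (Fin d)) ℤ →+* F)
    {b0 : MvPolynomial (Option (Fin d)) ℤ} {b : Fin N → MvPolynomial (Option (Fin d)) ℤ}
    {y : Fin N → F} (h : ∀ j, f b0 * y j = f (b j)) (hb0 : f b0 ≠ 0) (hy : ∀ j, y j ≠ 0)
    (a : Fin N → ℤ) (p : Polynomial ℤ) : f (Pn b0 b a p) =
      f (Nm b0 b (-a)) ^ p.natDegree *
        p.eval₂ (Int.castRingHom F) (∏ j, y j ^ a j) := by
  unfold Pn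
  rw [map_sum, Polynomial.eval₂_eq_sum_range, Finset.mul_sum]
  refine Finset.sum_congr rfl fun k hk => ?_
  have hk' : k ≤ p.natDegree := by
    have := Finset.mem_range.1 hk
    omega
  rw [map_mul, map_mul, map_pow, map_pow, map_C_int, (Nm_ratio f h hb0 hy a).2, mul_pow]
  have e1 : f (Nm b0 b (-a)) ^ p.natDegree =
      f (Nm b0 b (-a)) ^ k * f (Nm b0 b (-a)) ^ (p.natDegree - k) := by
    rw [← pow_add]
    congr 1
    omega
  rw [e1]
  simp only [Int.coe_castRingHom]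
  ring

theorem InP_one {h : MvPolynomial (Option (Fin d)) ℤ} {c : MvPolynomial (Fin d) ℤ} (hc : c ≠ 0)
    (h1 : InP h (rename some c)) : InP h 1 := by
  obtain ⟨c', hc', h2⟩ := h1
  refine ⟨c' * c, mul_ne_zero hc' hc, ?_⟩
  rw [map_mul, mul_one]
  exact h2

theorem Irr_pow {h : MvPolynomial (Option (Fin d)) ℤ} (hI : Irr h)
    {p : MvPolynomial (Option (Fin d)) ℤ} {k : ℕ} (hk : InP h (p ^ k)) : InP h p := by
  induction k with
  | zero =>
    rw [pow_zero] at hk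
    exact absurd hk hI.one
  | succ k ih =>
    rw [pow_succ] at hk
    rcases hI.mul _ _ hk with h1 | h1
    · exact ih h1
    · exact h1

/-- heights on exponent vectors -/
theorem hts (h4 : S_algH) (d N c₀ n K e₀ : ℕ) (he₀ : 1 ≤ e₀) : ∃ R₀ B : ℕ,
    ∀ (h : MvPolynomial (Option (Fin d)) ℤ) (b0 : MvPolynomial (Fin d) ℤ)
      (b : Fin N → MvPolynomial (Option (Fin d)) ℤ), Irr h → h.totalDegree ≤ c₀ → b0 ≠ 0 →
      b0.totalDegree ≤ c₀ → (∀ j, (b j).totalDegree ≤ c₀ ∧ ¬ InP h (b j)) →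
    ∀ (e : Fin n → Fin N → ℕ) (u : Fin n → ℤ) (M : ℕ), (∀ i, u i ≠ 0 ∧ ∑ j, e i j ≤ M) →
      (∀ J : Finset (Fin n), J.Nonempty →
        ¬ InP h (∑ i ∈ J, C (u i) * mon (rename some b0) b (e i) M)) →
    ∀ (κ r : ℕ) (g₁ g₂ : MvPolynomial (Option (Fin d)) ℤ), 1 ≤ κ → κ ≤ K → R₀ ≤ r →
      ¬ InP h g₁ → ¬ InP h g₂ →
      InP h (((∑ i, C (u i) * mon (rename some b0) b (e i) M) ^ e₀) ^ κ * g₂ ^ r -
        ((rename some b0 ^ M) ^ e₀) ^ κ * g₁ ^ r) →
    ∃ H : (Fin N → ℤ) → ℕ, (∀ a b, H (a + b) ≤ H a + H b) ∧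
      (∀ (k : ℕ) a, H (k • a) = k * H a) ∧
      (∀ a, H (-a) = H a) ∧ (∀ j, H (Pi.single j 1) ≤ B) ∧
      (∀ i i', H (fun j => (e i j : ℤ) - (e i' j : ℤ)) ≤ B) ∧
      ∀ a, H a = 0 → ∃ p : Polynomial ℤ, p ≠ 0 ∧ p.natDegree ≤ B ∧
        InP h (Pn (rename some b0) b a p) := by
  classical
  obtain ⟨R₀, B, hRB⟩ := h4 d N c₀ n (e₀ * K)
  refine ⟨R₀, B, ?_⟩
  intro h b0 b hI hd hb0 hb0d hb e u M hu hJ κ r g₁ g₂ hκ1 hκ2 hr hg1 hg2 hrel
  obtain ⟨L, _, φ, hφ, hfr⟩ := Pool.Agent.N54.HB.exL h hI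
  obtain ⟨H, hm, hp, hinv, hbd, hz, hmain⟩ := hRB h b0 b hI hd hb0 hb0d hb L φ hφ hfr
  obtain ⟨y, hyd⟩ : ∃ y : Fin N → L, y = fun j => φ (b j) / φ (rename some b0) := ⟨_, rfl⟩
  have hB0 : φ (rename some b0) ≠ 0 := fun hcon => hI.one (InP_one hb0 ((hφ _).1 hcon))
  have hy : ∀ j, y j ≠ 0 := fun j => by
    rw [hyd]
    exact div_ne_zero (fun hcon => (hb j).2 ((hφ _).1 hcon)) hB0
  have hyb : ∀ j, φ (rename some b0) * y j = φ (b j) := fun j => by
    rw [hyd]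
    exact mul_div_cancel₀ _ hB0
  have hyj : ∀ j, φ (b j) / φ (rename some b0) = y j := fun j => by rw [hyd]
  simp only [hyj] at hbd hmain
  have hpr : ∀ a : Fin N → ℤ, ∏ j, y j ^ a j ≠ 0 := fun a =>
    Finset.prod_ne_zero_iff.2 fun j _ => zpow_ne_zero _ (hy j)
  have hsum : ∀ J : Finset (Fin n), φ (∑ i ∈ J, C (u i) * mon (rename some b0) b (e i) M) =
      φ (rename some b0) ^ M * ∑ i ∈ J, (u i : L) * ∏ j, y j ^ e i j := by
    intro J
    rw [map_sum, Finset.mul_sum]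
    refine Finset.sum_congr rfl fun i _ => ?_
    rw [map_mul, map_C_int, map_mon φ hyb (hu i).2]
    ring
  have hg2' : φ g₂ ≠ 0 := fun hcon => hg2 ((hφ _).1 hcon)
  have heq : (∑ i, (u i : L) * ∏ j, y j ^ e i j) ^ (e₀ * κ) = (φ g₁ / φ g₂) ^ r := by
    have e1 := (hφ _).2 hrel
    rw [map_sub, map_mul, map_mul, map_pow, map_pow, map_pow, map_pow, map_pow, map_pow, map_pow,
      hsum] at e1
    rw [div_pow, eq_div_iff (pow_ne_zero _ hg2')]
    refine mul_left_cancel₀ (pow_ne_zero (M * (e₀ * κ)) hB0) ?_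
    rw [sub_eq_zero] at e1
    have e2 : φ (rename some b0) ^ (M * (e₀ * κ)) = ((φ (rename some b0) ^ M) ^ e₀) ^ κ := by
      rw [← pow_mul, ← pow_mul]
    rw [e2, ← e1, mul_pow, mul_pow, ← pow_mul _ e₀ κ]
    ring
  have hrat := hmain e u (fun i => (hu i).1) (fun J hJne hcon => hJ J hJne ((hφ _).1 (by
    rw [hsum, hcon, mul_zero]))) (e₀ * κ) r (φ g₁ / φ g₂) (Nat.mul_pos he₀ hκ1)
    (Nat.mul_le_mul_left _ hκ2) hr heq
  refine ⟨fun a => H (∏ j, y j ^ a j), fun a a' => ?_, fun k a => ?_, fun a => ?_, fun j => ?_,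
    fun i i' => ?_, fun a ha => ?_⟩
  · have e1 : ∏ j, y j ^ (a + a') j = (∏ j, y j ^ a j) * ∏ j, y j ^ a' j := by
      rw [← Finset.prod_mul_distrib]
      exact Finset.prod_congr rfl fun j _ => by rw [Pi.add_apply, zpow_add₀ (hy j)]
    show H (∏ j, y j ^ (a + a') j) ≤ _
    rw [e1]
    exact hm _ _ (hpr a) (hpr a')
  · have e1 : ∏ j, y j ^ (k • a) j = (∏ j, y j ^ a j) ^ k := by
      rw [← Finset.prod_pow]
      refine Finset.prod_congr rfl fun j _ => ?_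
      rw [Pi.smul_apply, nsmul_eq_mul, mul_comm, zpow_mul, zpow_natCast]
    show H (∏ j, y j ^ (k • a) j) = _
    rw [e1]
    exact hp _ _ (hpr a)
  · have e1 : ∏ j, y j ^ (-a) j = (∏ j, y j ^ a j)⁻¹ := by
      rw [← Finset.prod_inv_distrib]
      exact Finset.prod_congr rfl fun j _ => by rw [Pi.neg_apply, zpow_neg]
    show H (∏ j, y j ^ (-a) j) = _
    rw [e1]
    exact hinv _
  · have e1 : ∏ j', y j' ^ (Pi.single j 1 : Fin N → ℤ) j' = y j := by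
      rw [Finset.prod_eq_single j]
      · rw [Pi.single_eq_same, zpow_one]
      · intro j' _ hne
        rw [Pi.single_eq_of_ne hne, zpow_zero]
      · intro hcon
        exact absurd (Finset.mem_univ _) hcon
    show H (∏ j', y j' ^ (Pi.single j 1 : Fin N → ℤ) j') ≤ _
    rw [e1]
    exact hbd j
  · have e1 : ∏ j, y j ^ ((e i j : ℤ) - (e i' j : ℤ)) =
        (∏ j, y j ^ e i j) / ∏ j, y j ^ e i' j := by
      rw [← Finset.prod_div_distrib]
      refine Finset.prod_congr rfl fun j _ => ?_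
      rw [zpow_sub₀ (hy j), zpow_natCast, zpow_natCast]
    show H (∏ j, y j ^ ((e i j : ℤ) - (e i' j : ℤ))) ≤ _
    rw [e1]
    exact hrat i i'
  · obtain ⟨p, hp0, hpd, hpe⟩ := hz _ ha
    refine ⟨p, hp0, hpd, (hφ _).1 ?_⟩
    rw [map_Pn φ hyb hB0 hy, hpe, mul_zero]

end alg

/-! ## Values at points -/

section pts

variable {d N κ : ℕ}

theorem evC_rename (θ : ℂ) (s : Fin d → ℤ) (q : MvPolynomial (Fin d) ℤ) :
    evC θ s (rename some q) = ((eval s q : ℤ) : ℂ) := by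
  have h : (evC θ s).comp (rename some : MvPolynomial (Fin d) ℤ →ₐ[ℤ] _).toRingHom =
      (Int.castRingHom ℂ).comp (eval s) := by
    apply MvPolynomial.ringHom_ext
    · intro z
      simp [evC]
    · intro i
      simp [evC]
  exact RingHom.congr_fun h q

/-- the polynomials representing `vl α (cv o ξ t)` -/
noncomputable def Bq (b0 : MvPolynomial (Fin d) ℤ)
    (b : Option (Fin N) → MvPolynomial (Option (Fin d)) ℤ) (o : Fin N) (ξ : Fin κ → Fin N) :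
    MvPolynomial (Option (Fin d)) ℤ :=
  ∑ l : Fin κ, (b (some (ξ l)) - b (some o)) *
    (b none ^ (l : ℕ) * rename some b0 ^ (κ - 1 - (l : ℕ)))

theorem evC_Bq {θ : ℂ} {s : Fin d → ℤ} {α : ℂ} {t : Fin N → ℤ} {b0 : MvPolynomial (Fin d) ℤ}
    {b : Option (Fin N) → MvPolynomial (Option (Fin d)) ℤ}
    (h : ∀ j : Option (Fin N), ((eval s b0 : ℤ) : ℂ) * j.elim α (fun j => (t j : ℂ)) =
      evC θ s (b j)) (o : Fin N) (ξ : Fin κ → Fin N) :
    evC θ s (rename some (b0 ^ κ)) * vl α (cv o ξ t) = evC θ s (Bq b0 b o ξ) := by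
  unfold Bq vl
  rw [map_sum, Finset.mul_sum]
  refine Finset.sum_congr rfl fun l _ => ?_
  have h1 := h (some (ξ l))
  have h2 := h (some o)
  have h3 := h none
  simp only [Option.elim_some, Option.elim_none] at h1 h2 h3
  simp only [map_mul, map_sub, map_pow]
  rw [← h1, ← h2, ← h3, evC_rename]
  have hl : κ = 1 + (l : ℕ) + (κ - 1 - (l : ℕ)) := by
    have := l.2
    omega
  have e1 : ((eval s b0 : ℤ) : ℂ) ^ κ = ((eval s b0 : ℤ) : ℂ) * ((eval s b0 : ℤ) : ℂ) ^ (l : ℕ) *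
      ((eval s b0 : ℤ) : ℂ) ^ (κ - 1 - (l : ℕ)) := by
    conv_lhs => rw [hl]
    rw [pow_add, pow_add, pow_one]
  unfold cv
  push_cast
  rw [e1, mul_pow]
  ring

end pts

/-! ## Good points -/

theorem goodA (hv : S_van) {Y : ℕ → ℕ} {N κ : ℕ} {Om : ℕ → Finset (Fin N → ℤ)} {A : AD Om κ}
    (hY : ∀ m : ℕ, ∀ᶠ ν in (Uf : Filter ℕ), m ≤ Y ν) (G : GD Y Om)
    (G' : GDA Y Om A G.d G.ι) {Om₁ : ℕ → Finset (Fin N → ℤ)}
    (h1 : ∀ᶠ ν in (Uf : Filter ℕ), Om₁ ν ⊆ Om ν)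
    (hB : Big Y Om₁) : ∃ Om₂ : ℕ → Finset (Fin N → ℤ), (∀ᶠ ν in (Uf : Filter ℕ), Om₂ ν ⊆ Om₁ ν) ∧
      Big Y Om₂ ∧ ∀ᶠ ν in (Uf : Filter ℕ), ∀ t ∈ Om₂ ν,
        eval (fun b => t (G.ι b)) (G'.b0 ν) ≠ 0 ∧
        ∀ p, InP (G'.h ν) p → evC (G'.θ ν t) (fun b => t (G.ι b)) p = 0 := by
  classical
  have hl : ∀ᶠ ν in (Uf : Filter ℕ), ∃ l : MvPolynomial (Fin G.d) ℤ, l ≠ 0 ∧
      l.totalDegree ≤ (G'.h ν).totalDegree ∧ (∀ m, ∃ m', l.coeff m = (G'.h ν).coeff m') ∧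
      ∀ p, InP (G'.h ν) p → ∃ k : ℕ, G'.h ν ∣ rename some l ^ k * p := by
    filter_upwards [G'.hne, G'.hone] with ν a b
    exact hv G.d (G'.h ν) a b
  obtain ⟨l, hl⟩ := hl.choice
  have hlPB : PB Y l := by
    obtain ⟨C, hC⟩ := G'.hPB
    refine ⟨C, ?_⟩
    filter_upwards [hC, hl] with ν a b
    refine ⟨b.2.1.trans a.1, fun m => ?_⟩
    obtain ⟨m', hm'⟩ := b.2.2.1 m
    rw [hm']
    exact a.2 m'
  have hc : PB Y (fun ν => l ν * G'.b0 ν) := hlPB.mul G'.b0PB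
  have hc0 : ∀ᶠ ν in (Uf : Filter ℕ), l ν * G'.b0 ν ≠ 0 := by
    filter_upwards [hl, G'.b0ne] with ν a b
    exact mul_ne_zero a.1 b
  have hsm := G.small _ hc hc0
  refine ⟨fun ν => (Om₁ ν).filter fun t => eval (fun b => t (G.ι b)) (l ν * G'.b0 ν) ≠ 0,
    Filter.Eventually.of_forall fun ν => Finset.filter_subset _ _, ?_, ?_⟩
  · rcases hB.or hY (B := fun ν => (Om₁ ν).filter fun t =>
        eval (fun b => t (G.ι b)) (l ν * G'.b0 ν) ≠ 0)
      (C := fun ν => (Om ν).filter fun t => eval (fun b => t (G.ι b)) (l ν * G'.b0 ν) = 0)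
      (by
        filter_upwards [h1] with ν hν t ht
        by_cases h0 : eval (fun b => t (G.ι b)) (l ν * G'.b0 ν) = 0
        · exact Finset.mem_union_right _ (Finset.mem_filter.2 ⟨hν ht, h0⟩)
        · exact Finset.mem_union_left _ (Finset.mem_filter.2 ⟨ht, h0⟩)) with h | h
    · exact h
    · exact absurd h hsm
  · filter_upwards [hl, h1, G'.ev_h] with ν a b c t ht
    obtain ⟨ht1, ht2⟩ := Finset.mem_filter.1 ht
    rw [map_mul] at ht2
    refine ⟨right_ne_zero_of_mul ht2, fun p hp => ?_⟩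
    obtain ⟨k, q, hq⟩ := a.2.2.2 p hp
    have e1 := congrArg (evC (G'.θ ν t) (fun b => t (G.ι b))) hq
    rw [map_mul, map_mul, map_pow, evC_rename] at e1
    have e2 : evC (G'.θ ν t) (fun b => t (G.ι b)) (G'.h ν) = 0 := c t (b ht1)
    rw [e2, zero_mul] at e1
    rcases mul_eq_zero.1 e1 with e3 | e3
    · exact absurd e3 (pow_ne_zero k (by exact_mod_cast left_ne_zero_of_mul ht2))
    · exact e3

end Pool.Agent.N438.HC
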