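import Mathlib
import Pool.Agent.N438.HC.Alg

/-!
# Project HC: the core theorem for algebraic points (assembly)
-/

set_option autoImplicit false

namespace Pool.Agent.N438.HC

open Filter MvPolynomial Pool.Agent.Y902.GN Pool.Agent.N741.HB Pool.Agent.N741.HC

/-- the terms are mild -/
theorem tm_mild {Y : ℕ → ℕ} (hY : ∀ m : ℕ, ∀ᶠ ν in (Uf : Filter ℕ), m ≤ Y ν) {d N n : ℕ}
    (S : TD Y N n) {b0 : ℕ → MvPolynomial (Fin d) ℤ}
    {b : Fin N → ℕ → MvPolynomial (Option (Fin d)) ℤ} (hb0 : PB Y b0) (hb : ∀ j, PB Y (b j))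
    (i : Fin n) : Mild Y (fun ν => C (S.u ν i) *
      mon (rename some (b0 ν)) (fun j => b j ν) (S.e ν i) (S.M ν)) := by
  have h1 : Mild Y (fun ν => rename (some : Fin d → Option (Fin d)) (b0 ν)) :=
    (PB.mild hY hb0).rename hY some
  have h2 : Few Y (fun ν => S.M ν - ∑ j, S.e ν i j) := Few.mono (g := S.M) (fun c => S.he c)
    (Filter.Eventually.of_forall fun ν => Nat.sub_le _ _)
  have h3 : ∀ j, Few Y (fun ν => S.e ν i j) := fun j => Few.mono (g := S.M) (fun c => S.he c)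
    (Filter.Eventually.of_forall fun ν => S.e_le ν i j)
  have h4 : Mild Y (fun ν => ∏ j, b j ν ^ S.e ν i j) := by
    refine Mild.prod hY Finset.univ (f := fun j ν => b j ν ^ S.e ν i j) fun j _ => ?_
    exact (PB.mild hY (hb j)).pow hY (h3 j)
  have h5 : Mild Y (fun ν => (C (S.u ν i) : MvPolynomial (Option (Fin d)) ℤ)) := by
    refine Mild.C (w := S.w) S.hw ?_
    filter_upwards [S.hu] with ν h
    exact (h i).2
  exact h5.mul hY (h4.mul hY (h1.pow hY h2))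

theorem Bq_PB {Y : ℕ → ℕ} {N κ : ℕ} {Om : ℕ → Finset (Fin N → ℤ)} {A : AD Om κ}
    {d : ℕ} {ι : Fin d → Fin N} (G' : GDA Y Om A d ι) (o : Fin N) (ξ : Fin κ → Fin N) :
    PB Y (fun ν => Bq (G'.b0 ν) (fun x => G'.b x ν) o ξ) := by
  unfold Bq
  refine PB.sum Finset.univ (f := fun (l : Fin κ) ν => (G'.b (some (ξ l)) ν - G'.b (some o) ν) *
    (G'.b none ν ^ (l : ℕ) * rename some (G'.b0 ν) ^ (κ - 1 - (l : ℕ)))) fun l _ => ?_
  exact ((G'.bPB _).sub (G'.bPB _)).mul (((G'.bPB none).pow _).mul ((G'.b0PB.rename some).pow _))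

/-- **The core theorem for algebraic points**, from its parts. -/
theorem coreH (h1 : S_gda) (h2 : S_irrA) (h3 : S_rtA) (h4 : S_algH) (h5 : S_coord)
    (h6 : S_van) : S_coreH := by
  classical
  intro Y N Om hY hbig hbd κ A N' n ξ S hn hy hnvs e₀ r w ζ he₀ hr hrF hwF hz
  obtain ⟨Om1, hO1, hG1⟩ := Gen.ex hbig
  have hbd1 : Bdd Y Om1 := by
    filter_upwards [hbd, hO1] with ν a b t ht
    exact a t (b ht)
  have hB1 : Big Y Om1 := hG1.1
  obtain ⟨G, ⟨G'⟩⟩ := h1 Y N Om1 hY hG1 hbd1 κ (A.res hO1)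
  obtain ⟨F, hFm, hFe⟩ := h5 Y hY N N' n κ A.o A.μ ξ S e₀ A.pos
  -- the polynomials
  obtain ⟨b0κ, hb0κ⟩ : ∃ f : ℕ → MvPolynomial (Fin G.d) ℤ, f = fun ν => G'.b0 ν ^ κ := ⟨_, rfl⟩
  obtain ⟨Bj, hBj⟩ : ∃ f : Fin N' → ℕ → MvPolynomial (Option (Fin G.d)) ℤ,
    f = fun j ν => Bq (G'.b0 ν) (fun x => G'.b x ν) A.o (ξ j) := ⟨_, rfl⟩
  have hb0PB : PB Y b0κ := by
    rw [hb0κ]
    exact G'.b0PB.pow κ
  have hBPB : ∀ j, PB Y (Bj j) := fun j => by
    rw [hBj]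
    exact Bq_PB G' A.o (ξ j)
  have hb0ne : ∀ᶠ ν in (Uf : Filter ℕ), b0κ ν ≠ 0 := by
    filter_upwards [G'.b0ne] with ν h
    rw [hb0κ]
    exact pow_ne_zero _ h
  have hIrr := h2 Y N Om1 hY hB1 hbd1 κ (A.res hO1) G.d G.ι G'
  -- the values
  have hpt : ∀ᶠ ν in (Uf : Filter ℕ), ∀ t ∈ Om1 ν, ∀ j : Fin N',
      evC (G'.θ ν t) (fun b => t (G.ι b)) (rename some (b0κ ν)) * vl (A.α ν t) (cv A.o (ξ j) t) =
        evC (G'.θ ν t) (fun b => t (G.ι b)) (Bj j ν) := by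
    filter_upwards [G'.ev_b] with ν h t ht j
    rw [hb0κ, hBj]
    exact evC_Bq (h t ht) A.o (ξ j)
  have hval : ∀ᶠ ν in (Uf : Filter ℕ), ∀ t ∈ Om1 ν, ∀ J : Finset (Fin n),
      evC (G'.θ ν t) (fun b => t (G.ι b)) (∑ i ∈ J, C (S.u ν i) *
        mon (rename some (b0κ ν)) (fun j => Bj j ν) (S.e ν i) (S.M ν)) =
      evC (G'.θ ν t) (fun b => t (G.ι b)) (rename some (b0κ ν)) ^ S.M ν *
        ∑ i ∈ J, TA S A.α A.o ξ ν i t := by
    filter_upwards [hpt] with ν h t ht J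
    rw [map_sum, Finset.mul_sum]
    refine Finset.sum_congr rfl fun i _ => ?_
    rw [map_mul, map_C_int, map_mon _ (h t ht) (S.le_M ν i)]
    unfold TA
    ring
  -- the relation in the function field
  have hFs : Mild Y (fun ν => ∑ i, C (S.u ν i) *
      mon (rename some (b0κ ν)) (fun j => Bj j ν) (S.e ν i) (S.M ν)) :=
    Mild.sum hY Finset.univ (f := fun i ν => C (S.u ν i) *
      mon (rename some (b0κ ν)) (fun j => Bj j ν) (S.e ν i) (S.M ν))
      fun i _ => tm_mild hY S hb0PB hBPB i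
  have he₀F : Few Y (fun _ => e₀) := Few.const hY e₀
  have hFc := hFs.pow hY he₀F
  have hAc : Mild Y (fun ν => (rename (some : Fin G.d → Option (Fin G.d)) (b0κ ν) ^ S.M ν) ^ e₀) :=
    (((PB.mild hY hb0PB).rename hY some).pow hY (fun c => S.he c)).pow hY he₀F
  have huniv : (Finset.univ : Finset (Fin n)).Nonempty := ⟨⟨0, hn⟩, Finset.mem_univ _⟩
  have hrt := h3 Y N Om1 hY hB1 hbd1 G κ (A.res hO1) G' F hFm _ _ hAc hFc (by
      filter_upwards [hIrr, hb0ne, G'.hone] with ν a b c hcon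
      exact c (InP_one b (Irr_pow a (Irr_pow a hcon)))) (by
      filter_upwards [hval, A.root, hO1] with ν a b c t ht
      have e1 := hFe ν t A.α (b t (c ht))
      have e2 := a t ht Finset.univ
      show evC (G'.θ ν t) (fun b => t (G.ι b)) ((rename some (b0κ ν) ^ S.M ν) ^ e₀) *
        vl (A.α ν t) (fun l => eval t (F ν l)) = _
      rw [e1, map_pow _ _ e₀, map_pow _ _ e₀, e2, map_pow, mul_pow]) r w ζ (hr 1) hrF hwF (by
      filter_upwards [hz, hO1, hnvs, hr 1, A.root] with ν a b c d' e' t ht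
      have k1 := a t (b ht)
      have e1 := hFe ν t A.α (e' t (b ht))
      refine ⟨k1.1, ?_, ?_⟩
      · intro h0
        have k2 := c t (b ht) Finset.univ huniv
        have k3 : vl (A.α ν t) (ζ ν t) = 0 := by
          rw [h0]
          unfold vl
          simp
        have k4 := k1.2
        rw [k3, zero_pow (by omega)] at k4
        exact k2 (pow_eq_zero_iff (by omega) |>.1 k4)
      · show vl (A.α ν t) (ζ ν t) ^ r ν = vl (A.α ν t) (fun l => eval t (F ν l))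
        rw [e1, k1.2])
  obtain ⟨K, hK⟩ := hrt
  -- bounds for the degrees
  obtain ⟨c1, hc1⟩ := G'.hPB
  obtain ⟨c2, hc2⟩ := hb0PB
  have hc3 : ∃ c3, ∀ᶠ ν in (Uf : Filter ℕ), ∀ j, (Bj j ν).totalDegree ≤ c3 := by
    choose c hc using hBPB
    refine ⟨∑ j, c j, ?_⟩
    filter_upwards [Filter.eventually_all.2 hc] with ν h j
    exact (h j).1.trans (Finset.single_le_sum (f := c) (fun _ _ => Nat.zero_le _)
      (Finset.mem_univ j))
  obtain ⟨c3, hc3⟩ := hc3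
  obtain ⟨R₀, B, hRB⟩ := hts h4 G.d N' (c1 + c2 + c3) n K e₀ he₀
  obtain ⟨Om2, hO2, hB2, hgood⟩ := goodA h6 hY G G' (Om₁ := Om1)
    (Filter.Eventually.of_forall fun _ => subset_rfl) hB1
  have key : ∀ᶠ ν in (Uf : Filter ℕ), ∃ H : (Fin N' → ℤ) → ℕ,
      (∀ a b, H (a + b) ≤ H a + H b) ∧ (∀ (k : ℕ) a, H (k • a) = k * H a) ∧
      (∀ a, H (-a) = H a) ∧ (∀ j, H (Pi.single j 1) ≤ B) ∧
      (∀ i i', H (fun j => (S.e ν i j : ℤ) - (S.e ν i' j : ℤ)) ≤ B) ∧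
      ∀ a, H a = 0 → ∃ p : Polynomial ℤ, p ≠ 0 ∧ p.natDegree ≤ B ∧
        InP (G'.h ν) (Pn (rename some (b0κ ν)) (fun j => Bj j ν) a p) := by
    filter_upwards [hK, hIrr, hc1, hc2, hc3, hb0ne, hgood, hB2.nonempty, hO2, hO1, hnvs, hr R₀,
      hval, hpt, S.hu, hy] with ν g1 g2 g3 g4 g5 g6 g7 g8 g9 g10 g11 g12 g13 g14 g15 g16
    obtain ⟨κ', hκ1, hκ2, g₁, g₂, hg1, hg2, hg3⟩ := g1
    obtain ⟨t, ht⟩ := g8
    have ht1 : t ∈ Om1 ν := g9 ht
    obtain ⟨hb0, hgd⟩ := g7 t ht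
    have hb0' : evC (G'.θ ν t) (fun b => t (G.ι b)) (rename some (b0κ ν)) ≠ 0 := by
      rw [evC_rename, hb0κ]
      show ((eval (fun b => t (G.ι b)) (G'.b0 ν ^ κ) : ℤ) : ℂ) ≠ 0
      rw [map_pow]
      exact_mod_cast pow_ne_zero κ hb0
    refine hRB (G'.h ν) (b0κ ν) (fun j => Bj j ν) g2 (g3.1.trans (by omega)) g6
      (g4.1.trans (by omega)) (fun j => ⟨(g5 j).trans (by omega), fun hcon => ?_⟩) (S.e ν)
      (S.u ν) (S.M ν) (fun i => ⟨(g15 i).1, S.le_M ν i⟩) (fun J hJ hcon => ?_) κ' (r ν) g₁ g₂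
      hκ1 hκ2 g12 hg1 hg2 hg3
    · have e1 := hgd _ hcon
      have e2 := g14 t ht1 j
      rw [e1] at e2
      rcases mul_eq_zero.1 e2 with e4 | e4
      · exact hb0' e4
      · exact g16 t (g10 ht1) j e4
    · have e1 := hgd _ hcon
      rw [g13 t ht1 J] at e1
      rcases mul_eq_zero.1 e1 with e3 | e3
      · exact pow_ne_zero _ hb0' e3
      · exact g11 t (g10 ht1) J hJ e3
  obtain ⟨H, hH⟩ := key.choice
  refine ⟨Om1, B, H, hO1, hB1, ?_, ?_⟩
  · filter_upwards [hH] with ν h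
    exact ⟨h.1, h.2.1, h.2.2.1, h.2.2.2.1, h.2.2.2.2.1⟩
  · intro a ha Om₂ hO₂ hB₂
    obtain ⟨Om₃, hO₃, hB₃, hgood₃⟩ := goodA h6 hY G G' hO₂ hB₂
    have hp : ∀ᶠ ν in (Uf : Filter ℕ), ∃ p : Polynomial ℤ, p ≠ 0 ∧ p.natDegree ≤ B ∧
        InP (G'.h ν) (Pn (rename some (b0κ ν)) (fun j => Bj j ν) (a ν) p) := by
      filter_upwards [hH, ha] with ν h h'
      exact h.2.2.2.2.2 _ h'
    obtain ⟨p, hp⟩ := hp.choice
    obtain ⟨Om₄, h7, h8, h9⟩ := hB₃.fiber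
      (fun ν t => ∏ j, vl (A.α ν t) (cv A.o (ξ j) t) ^ (a ν j))
      (fun ν => ((p ν).map (Int.castRingHom ℂ)).roots.toFinset) (by
        filter_upwards [hp, hgood₃, hpt, hO₃, hO₂, hO1, hy] with ν g1 g2 g3 g4 g5 g6 g7 t ht
        have ht1 : t ∈ Om1 ν := g5 (g4 ht)
        obtain ⟨hb0, hgd⟩ := g2 t ht
        have hb0' : evC (G'.θ ν t) (fun b => t (G.ι b)) (rename some (b0κ ν)) ≠ 0 := by
          rw [evC_rename, hb0κ]
          show ((eval (fun b => t (G.ι b)) (G'.b0 ν ^ κ) : ℤ) : ℂ) ≠ 0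
          rw [map_pow]
          exact_mod_cast pow_ne_zero κ hb0
        have hyt := g7 t (g6 ht1)
        have e1 := hgd _ g1.2.2
        rw [map_Pn _ (g3 t ht1) hb0' hyt] at e1
        rw [Multiset.mem_toFinset, Polynomial.mem_roots
          ((Polynomial.map_ne_zero_iff (RingHom.injective_int _)).2 g1.1), Polynomial.IsRoot.def,
          Polynomial.eval_map]
        rcases mul_eq_zero.1 e1 with e2 | e2
        · exact absurd e2 (pow_ne_zero _ (Nm_ratio _ (g3 t ht1) hb0' hyt (a ν)).1)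
        · exact e2) (by
        refine Few.mono (Few.const hY B) ?_
        filter_upwards [hp] with ν g1
        refine (Multiset.toFinset_card_le _).trans ((Polynomial.card_roots' _).trans ?_)
        exact (Polynomial.natDegree_map_le).trans g1.2.1)
    refine ⟨Om₄, ?_, h8, h9⟩
    filter_upwards [h7, hO₃] with ν a b
    exact a.trans b

end Pool.Agent.N438.HC
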